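import Pool.Agent.helper81.CI.Spec

set_option autoImplicit false

open MeasureTheory Set Filter Topology
open scoped ENNReal
open Pool.Agent.helper81.CW Pool.Agent.CL

noncomputable section

namespace Pool.Agent.CI

theorem LYI_one (t r : ℝ) (ht : 0 < t) (hr : 0 ≤ r) :
    ENNReal.ofReal (Real.exp (t / 2 - t * r ^ 2 / 2)) =
      ∫⁻ u in Ioi r, ENNReal.ofReal (t * u * Real.exp (t / 2 - t * u ^ 2 / 2)) := by
  have hd : ∀ x ∈ Ici r, HasDerivAt (fun u : ℝ => -Real.exp (t / 2 - t * u ^ 2 / 2))
      (t * x * Real.exp (t / 2 - t * x ^ 2 / 2)) x := by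
    intro x _
    have h1 : HasDerivAt (fun u : ℝ => t / 2 - t * u ^ 2 / 2) (-(t * (2 * x) / 2)) x := by
      have h2 := (((hasDerivAt_pow 2 x).const_mul t).div_const 2).const_sub (t / 2)
      simpa using h2
    have h4 := h1.exp.neg
    have h5 : -(Real.exp (t / 2 - t * x ^ 2 / 2) * -(t * (2 * x) / 2)) =
        t * x * Real.exp (t / 2 - t * x ^ 2 / 2) := by ring
    rw [← h5]
    exact h4
  have hpos : ∀ x ∈ Ioi r, 0 ≤ t * x * Real.exp (t / 2 - t * x ^ 2 / 2) := by
    intro x hx
    have hx0 : 0 ≤ x := le_trans hr (le_of_lt hx)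
    positivity
  have hlim : Tendsto (fun u : ℝ => -Real.exp (t / 2 - t * u ^ 2 / 2)) atTop (𝓝 0) := by
    have h1 : Tendsto (fun u : ℝ => t / 2 - t * u ^ 2 / 2) atTop atBot := by
      have h2 : Tendsto (fun u : ℝ => (t / 2) * u ^ 2) atTop atTop :=
        (tendsto_pow_atTop (by norm_num)).const_mul_atTop (by positivity)
      have h3 := tendsto_atBot_add_const_left atTop (t / 2) (tendsto_neg_atTop_atBot.comp h2)
      refine h3.congr fun u => ?_
      show t / 2 + -((t / 2) * u ^ 2) = t / 2 - t * u ^ 2 / 2
      ring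
    have h3 := (Real.tendsto_exp_atBot.comp h1).neg
    simpa using h3
  have hint := integrableOn_Ioi_deriv_of_nonneg' hd hpos hlim
  have hval := integral_Ioi_of_hasDerivAt_of_nonneg' hd hpos hlim
  rw [← ofReal_integral_eq_lintegral_ofReal hint, hval]
  · congr 1
    ring
  · filter_upwards [ae_restrict_mem measurableSet_Ioi] with x hx using hpos x hx

theorem LYI (hFAR : FAR_stmt) : LYI_stmt := by
  intro n C z t hC hCne ht
  set φ : ℝ → ℝ≥0∞ := fun u => ENNReal.ofReal (t * u * Real.exp (t / 2 - t * u ^ 2 / 2)) with hφ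
  have hφm : Measurable φ := by
    rw [hφ]
    fun_prop
  have hfar0 : ∀ x : E n, 0 ≤ far C x := by
    intro x
    obtain ⟨c, hc, h⟩ := (hFAR n C hC hCne x x).2.1
    rw [← h]
    exact norm_nonneg _
  have hfarm : Measurable (far C : E n → ℝ) := by
    have hL : LipschitzWith 1 (far C : E n → ℝ) := by
      apply LipschitzWith.of_dist_le_mul
      intro x y
      rw [Real.dist_eq, dist_eq_norm, NNReal.coe_one, one_mul]
      exact (hFAR n C hC hCne x y).2.2.1
    exact hL.continuous.measurable
  set g : E n → ℝ := fun x => far C ((2 : ℝ) • z - x) with hg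
  have hgm : Measurable g := hfarm.comp (by fun_prop)
  have hg0 : ∀ x, 0 ≤ g x := fun x => hfar0 _
  have hlay : ∀ r : ℝ, 0 ≤ r → ENNReal.ofReal (Real.exp (t / 2 - t * r ^ 2 / 2)) =
      ∫⁻ u in Ioi (0 : ℝ), (Ioi r).indicator φ u := by
    intro r hr
    rw [setLIntegral_indicator measurableSet_Ioi, Set.inter_eq_left.mpr (Ioi_subset_Ioi hr)]
    exact LYI_one t r ht hr
  -- measurability of the layers
  have hlm : ∀ f w : E n × ℝ → ℝ, Measurable f → Measurable w →
      Measurable (fun p : E n × ℝ => (Ioi (f p)).indicator φ (w p)) := by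
    intro f w hf hw
    have h3 : (fun p : E n × ℝ => (Ioi (f p)).indicator φ (w p)) =
        {p : E n × ℝ | f p < w p}.indicator (fun p => φ (w p)) := by
      funext p
      by_cases h : f p < w p
      · rw [Set.indicator_of_mem (show p ∈ {p : E n × ℝ | f p < w p} from h)]
        exact Set.indicator_of_mem (show w p ∈ Ioi (f p) from h) φ
      · rw [Set.indicator_of_notMem (show p ∉ {p : E n × ℝ | f p < w p} from h)]
        exact Set.indicator_of_notMem (show w p ∉ Ioi (f p) from h) φ
    rw [h3]
    exact (hφm.comp hw).indicator (measurableSet_lt hf hw)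
  have hf1 : Measurable (fun p : E n × ℝ => far C p.1) := hfarm.comp measurable_fst
  have hg1 : Measurable (fun p : E n × ℝ => g p.1) := hgm.comp measurable_fst
  set H : E n → ℝ≥0∞ := fun x => ENNReal.ofReal (Real.exp (t / 2 - t * g x ^ 2 / 2)) with hH
  have hHm : Measurable H := by
    rw [hH]
    fun_prop
  have h1 : IZ C z t = ∫⁻ x : E n, ∫⁻ u in Ioi (0 : ℝ), (Ioi (far C x)).indicator φ u * H x := by
    unfold IZ
    refine lintegral_congr fun x => ?_
    rw [lintegral_mul_const _ (hφm.indicator measurableSet_Ioi), ← hlay _ (hfar0 x), hH]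
    show _ = ENNReal.ofReal _ * ENNReal.ofReal _
    rw [← ENNReal.ofReal_mul (Real.exp_pos _).le, ← Real.exp_add]
    congr 2
    show _ = t / 2 - t * far C x ^ 2 / 2 + (t / 2 - t * far C ((2 : ℝ) • z - x) ^ 2 / 2)
    ring
  rw [h1, lintegral_lintegral_swap]
  · refine lintegral_mono fun u => ?_
    show ∫⁻ x : E n, (Ioi (far C x)).indicator φ u * H x ≤
      ∫⁻ v in Ioi (0 : ℝ), φ u * (φ v * volume (AZ C z u v))
    have h2 : ∫⁻ x : E n, (Ioi (far C x)).indicator φ u * H x =
        ∫⁻ x : E n, ∫⁻ v in Ioi (0 : ℝ),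
          (Ioi (far C x)).indicator φ u * (Ioi (g x)).indicator φ v := by
      refine lintegral_congr fun x => ?_
      rw [lintegral_const_mul _ (hφm.indicator measurableSet_Ioi), ← hlay _ (hg0 x)]
    rw [h2, lintegral_lintegral_swap]
    · refine lintegral_mono fun v => ?_
      show ∫⁻ x : E n, (Ioi (far C x)).indicator φ u * (Ioi (g x)).indicator φ v ≤
        φ u * (φ v * volume (AZ C z u v))
      have h4 : (fun x : E n => (Ioi (far C x)).indicator φ u * (Ioi (g x)).indicator φ v) =
          {x : E n | far C x < u ∧ g x < v}.indicator (fun _ => φ u * φ v) := by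
        funext x
        by_cases h : far C x < u
        · by_cases h' : g x < v
          · rw [Set.indicator_of_mem (show u ∈ Ioi (far C x) from h),
              Set.indicator_of_mem (show v ∈ Ioi (g x) from h'),
              Set.indicator_of_mem (show x ∈ {x : E n | far C x < u ∧ g x < v} from ⟨h, h'⟩)]
          · rw [Set.indicator_of_notMem (show v ∉ Ioi (g x) from h'), mul_zero,
              Set.indicator_of_notMem
                (show x ∉ {x : E n | far C x < u ∧ g x < v} from fun hh => h' hh.2)]
        · rw [Set.indicator_of_notMem (show u ∉ Ioi (far C x) from h), zero_mul,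
            Set.indicator_of_notMem
              (show x ∉ {x : E n | far C x < u ∧ g x < v} from fun hh => h hh.1)]
      have hms : MeasurableSet {x : E n | far C x < u ∧ g x < v} :=
        (measurableSet_lt hfarm measurable_const).inter (measurableSet_lt hgm measurable_const)
      rw [h4, lintegral_indicator_const hms, mul_assoc]
      have hsub : {x : E n | far C x < u ∧ g x < v} ⊆ AZ C z u v := fun x hx =>
        ⟨le_of_lt hx.1, le_of_lt hx.2⟩
      exact mul_le_mul' le_rfl (mul_le_mul' le_rfl (measure_mono hsub))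
    · apply Measurable.aemeasurable
      have h5 : Measurable (fun p : E n × ℝ => (Ioi (far C p.1)).indicator φ u) :=
        hlm _ (fun _ => u) hf1 measurable_const
      have h6 : Measurable (fun p : E n × ℝ => (Ioi (g p.1)).indicator φ p.2) :=
        hlm _ _ hg1 measurable_snd
      have h7 := h5.mul h6
      exact h7
  · apply Measurable.aemeasurable
    have h5 : Measurable (fun p : E n × ℝ => (Ioi (far C p.1)).indicator φ p.2) :=
      hlm _ _ hf1 measurable_snd
    have h6 : Measurable (fun p : E n × ℝ => H p.1) := hHm.comp measurable_fst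
    have h7 := h5.mul h6
    exact h7

end Pool.Agent.CI
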